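import Pool.Agent.helper1.KG.K6

/-! # Module K4 (project KG): `k9` -/

namespace Pool.Agent.helper88.KG

open Finset Pool.Agent.helper76.LP Pool.Agent.helper88.EF

/-- the excluded residues -/
def K4_X {p : ℕ} (t : (ZMod p)ˣ) : Finset (ZMod p)ˣ := {1, -1, t, -t, t⁻¹, -t⁻¹}

lemma K4_big {p : ℕ} [Fact p.Prime] (h17 : 17 ≤ p) (t : (ZMod p)ˣ) :
    Subgroup.closure {u : (ZMod p)ˣ | u ∉ K4_X t} = ⊤ := by
  classical
  set H := Subgroup.closure {u : (ZMod p)ˣ | u ∉ K4_X t} with hH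
  by_contra hne
  have h1 : Nat.card H * H.index = Nat.card (ZMod p)ˣ := H.card_mul_index
  have hi1 : H.index ≠ 1 := fun h => hne (Subgroup.index_eq_one.1 h)
  have hi0 : H.index ≠ 0 := Subgroup.index_ne_zero_of_finite
  have hG : Nat.card (ZMod p)ˣ = p - 1 := by
    rw [Nat.card_eq_fintype_card, ZMod.card_units]
  have hA : (univ \ K4_X t).card ≤ Nat.card H := by
    have e : Nat.card H = (univ.filter (· ∈ H)).card := by
      rw [Nat.card_eq_fintype_card, Fintype.card_subtype]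
    rw [e]
    apply Finset.card_le_card
    intro u hu
    rw [mem_filter]
    refine ⟨mem_univ u, Subgroup.subset_closure ?_⟩
    exact (mem_sdiff.1 hu).2
  have hX : (K4_X t).card ≤ 6 := Finset.card_le_six
  have h2 : (univ : Finset (ZMod p)ˣ).card ≤ (univ \ K4_X t).card + (K4_X t).card :=
    Finset.card_le_card_sdiff_add_card
  rw [Finset.card_univ, ZMod.card_units] at h2
  rw [hG] at h1
  have h3 : Nat.card H * 2 ≤ Nat.card H * H.index :=
    Nat.mul_le_mul_left _ (by omega)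
  omega

lemma K4_11 (t : (ZMod 11)ˣ) (ht : (t : ZMod 11) = 2) :
    Subgroup.closure {u : (ZMod 11)ˣ | u ∉ K4_X t} = ⊤ := by
  let w : (ZMod 11)ˣ := ⟨7, 8, by decide, by decide⟩
  have h1 : Subgroup.closure ({w} : Set (ZMod 11)ˣ) = ⊤ := RH_top w 10 (by decide)
  rw [eq_top_iff, ← h1]
  apply Subgroup.closure_mono
  rw [Set.singleton_subset_iff]
  show w ∉ K4_X _
  revert t
  decide

lemma K4_13 (t : (ZMod 13)ˣ) (ht : (t : ZMod 13) = 2) :
    Subgroup.closure {u : (ZMod 13)ˣ | u ∉ K4_X t} = ⊤ := by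
  let w : (ZMod 13)ˣ := ⟨5, 8, by decide, by decide⟩
  let w' : (ZMod 13)ˣ := ⟨4, 10, by decide, by decide⟩
  have h1 : ∀ x : (ZMod 13)ˣ, ∃ j < 12, (w * w') ^ j = x := by decide
  rw [eq_top_iff]
  intro x _
  obtain ⟨j, _, rfl⟩ := h1 x
  apply Subgroup.pow_mem
  apply Subgroup.mul_mem
  · apply Subgroup.subset_closure
    show w ∉ K4_X _
    revert t
    decide
  · apply Subgroup.subset_closure
    show w' ∉ K4_X _
    revert t
    decide

lemma K4_top {p : ℕ} (hp : p.Prime) (h11 : 11 ≤ p) (t : (ZMod p)ˣ) (ht : (t : ZMod p) = 2) :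
    Subgroup.closure {u : (ZMod p)ˣ | u ∉ K4_X t} = ⊤ := by
  have : Fact p.Prime := ⟨hp⟩
  rcases Nat.lt_or_ge p 17 with h | h
  · have h13 : p = 11 ∨ p = 13 := by
      interval_cases p <;> first | exact Or.inl rfl | exact Or.inr rfl |
        (exfalso; revert hp; norm_num)
    rcases h13 with rfl | rfl
    · exact K4_11 t ht
    · exact K4_13 t ht
  · exact K4_big h t

/-- a prime `p ≥ 11`, `p ≠ q`: `V p` = all residues except `±1, ±2, ±1/2` -/
theorem k9 (D q : ℕ) [NeZero D] (L : List ℕ) (ev : Prop) (K : ℤ) (f : (ZMod D)ˣ → ℤ)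
    (h : RK D q L ev K f) (ho : Odd D) (h2 : ¬ q * q ∣ D) (p : ℕ) (hp : p.Prime)
    (h11 : 11 ≤ p) (hpq : p ≠ q) (hpD : p ∣ D) (hpp : ¬ p * p ∣ D) : MDv (Gam D) L f := by
  have : Fact p.Prime := ⟨hp⟩
  have hmem := RH_mem h.nd h.hL
  have hpL : p ∈ L := (hmem p).2 ⟨hp, hpD, hpq⟩
  have hnd : L.Nodup := (List.nodup_cons.1 h.nd).2
  have hqD : q ∣ D := by
    have h1 : q ∈ D.primeFactors := by rw [← h.hL]; simp
    exact Nat.dvd_of_mem_primeFactors h1
  have hcop : Nat.Coprime 2 p := (Nat.coprime_primes Nat.prime_two hp).2 (by omega)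
  let t : (ZMod p)ˣ := ZMod.unitOfCoprime 2 hcop
  have ht : (t : ZMod p) = 2 := by
    rw [ZMod.coe_unitOfCoprime]; norm_num
  have hdiv : ∀ r : ℕ, r.Prime → r ∣ D → r ≠ p → p ∣ D / r := by
    intro r hr hrD hrp
    obtain ⟨k, rfl⟩ := hrD
    rw [Nat.mul_div_cancel_left _ hr.pos]
    exact (hp.dvd_mul.1 hpD).resolve_left fun h1 =>
      hrp ((Nat.prime_dvd_prime_iff_eq hp hr).1 h1).symm
  apply mdv_of_dl (Gam D) L hnd (fun r => if r = p then
    {v | v ∈ Gam D p ∧ ZMod.unitsMap hpD v ∈ {u : (ZMod p)ˣ | u ∉ K4_X t}}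
      else (Gam D r : Set (ZMod D)ˣ))
  · intro r hr
    by_cases hrp : r = p
    · subst hrp
      rw [if_pos rfl]
      exact gam_closure D r hp hpD hpp _ (K4_top hp h11 t ht)
    · rw [if_neg hrp, Subgroup.closure_eq]
  intro v hV z
  have hvp := hV p hpL
  rw [if_pos rfl] at hvp
  obtain ⟨hvG, hvX⟩ := hvp
  have hv : ∀ r ∈ L, v r ∈ Gam D r := by
    intro r hr
    by_cases hrp : r = p
    · subst hrp; exact hvG
    · have := hV r hr
      rw [if_neg hrp] at this
      exact this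
  by_cases hv1 : ∀ r ∈ L, v r ≠ 1
  swap
  · push Not at hv1
    obtain ⟨r, hr, hr1⟩ := hv1
    exact RH_dl_one v L r hr hr1 f z
  set u := ZMod.unitsMap hpD (v p) with hu
  have hX : u ≠ 1 ∧ u ≠ -1 ∧ u ≠ t ∧ u ≠ -t ∧ u ≠ t⁻¹ ∧ u ≠ -t⁻¹ := by
    have h3 : u ∉ K4_X t := hvX
    simpa [K4_X] using h3
  obtain ⟨x1, x2, x3, x4, x5, x6⟩ := hX
  have hvv : v p * v p ≠ 1 := by
    intro h3
    have h4 := congrArg (ZMod.unitsMap hpD) h3
    rw [map_mul, map_one, ← hu] at h4
    have h5 : ((u : ZMod p) - 1) * ((u : ZMod p) + 1) = 0 := by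
      have := congrArg (Units.val) h4
      rw [Units.val_mul, Units.val_one] at this
      linear_combination this
    rcases mul_eq_zero.1 h5 with h6 | h6
    · exact x1 (Units.ext (by rw [Units.val_one]; linear_combination h6))
    · exact x2 (Units.ext (by rw [Units.val_neg, Units.val_one]; linear_combination h6))
  refine K6_zero h hqD v hv hv1 (Or.inr ⟨p, hpL, hvv⟩) p hpD (hdiv q h.hq hqD (Ne.symm hpq))
    (fun r hr hrp => hdiv r ((hmem r).1 hr).1 ((hmem r).1 hr).2.1 hrp) ?_ z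
  rw [← hu]
  have h30 : (3 : ZMod p) ≠ 0 := by
    intro h3
    have h4 : ((3 : ℕ) : ZMod p) = 0 := by exact_mod_cast h3
    rw [ZMod.natCast_eq_zero_iff] at h4
    have := Nat.le_of_dvd (by norm_num) h4
    omega
  have e1 : t ≠ 1 := by
    intro h3
    have h4 := congrArg Units.val h3
    rw [ht, Units.val_one] at h4
    exact one_ne_zero (α := ZMod p) (by linear_combination h4)
  have e2 : t ≠ -1 := by
    intro h3
    have h4 := congrArg Units.val h3
    rw [ht, Units.val_neg, Units.val_one] at h4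
    exact h30 (by linear_combination h4)
  intro b i j hb
  rw [← ht, ← Units.val_mul] at hb
  have hb' := Units.ext hb
  cases b <;> cases i <;> cases j <;> simp [su] at hb'
  · exact e1 hb'
  · exact x3 hb'.symm
  · exact x5 (eq_inv_of_mul_eq_one_right hb')
  · exact e1 hb'
  · exact e2 hb'
  · exact x4 (by rw [hb', neg_neg])
  · apply x6
    rw [← mul_neg_one, ← hb', inv_mul_cancel_left]
  · apply e2
    rw [← mul_left_inj u, hb', neg_one_mul]

end Pool.Agent.helper88.KG
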